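import Pool.Agent.H67.LW.Base

/-!
LM: the clusters are laminar.
-/

set_option autoImplicit false

namespace LW

open Finset

namespace LML

variable {V : Type} [Fintype V] [DecidableEq V] {G : SimpleGraph V} {k : ℕ}
  {Valid : Finset V → Prop} {X : Finset V → Finset V}

theorem child_valid (hD : Dec G k Valid X) {E D : Finset V} (hE : Valid E)
    (h : Child G X E D) : Valid D := hD.child E hE D h

theorem child_sub {E D : Finset V} (h : Child G X E D) : D ⊆ E :=
  h.1.trans sdiff_subset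

theorem child_disj {E D : Finset V} (h : Child G X E D) : Disjoint D (X E) := by
  rw [Finset.disjoint_left]
  intro v hv hv'
  exact (mem_sdiff.1 (h.1 hv)).2 hv'

theorem child_nbr (hD : Dec G k Valid X) {E D : Finset V} (hE : Valid E)
    (h : Child G X E D) : nbr G D ⊆ X E := by
  intro v hv
  obtain ⟨hvD, u, hu, huv⟩ := mem_nbr.1 hv
  by_cases hvE : v ∈ E
  · by_contra hvX
    exact hvD (h.2.2 u hu v (mem_sdiff.2 ⟨hvE, hvX⟩) huv)
  · exact hD.sub E hE (mem_nbr.2 ⟨hvE, u, child_sub h hu, huv⟩)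

theorem child_card (hD : Dec G k Valid X) {E D : Finset V} (hE : Valid E)
    (h : Child G X E D) : D.card < E.card := by
  obtain ⟨v, hv, hvX⟩ := hD.meet E hE
  refine card_lt_card ⟨child_sub h, fun hsub => ?_⟩
  exact (Finset.disjoint_left.1 (child_disj h)) (hsub hv) hvX

theorem child_nbr_nonempty (hD : Dec G k Valid X) {E D : Finset V} (hE : Valid E)
    (h : Child G X E D) : (nbr G D).Nonempty := by
  obtain ⟨v, hv, hvX⟩ := hD.meet E hE
  have hvD : v ∉ D := fun hvD => (Finset.disjoint_left.1 (child_disj h)) hvD hvX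
  obtain ⟨u, hu⟩ := h.2.1.1
  obtain ⟨x, -, y, -, hx, hy, hxy⟩ :=
    ((hD.conn E hE).2 u (child_sub h hu) v hv).exit hu hvD
  exact ⟨y, mem_nbr.2 ⟨hy, x, hx, hxy⟩⟩

theorem one (hD : Dec G k Valid X) {C D : Finset V} (hC : Valid C) (h : Desc G X C D) :
    Valid D ∧ D ⊆ C ∧ nbr G D ⊆ C ∪ nbr G C ∧ (D ≠ C → D.card < C.card ∧ Disjoint D (X C)) := by
  induction h with
  | refl => exact ⟨hC, Subset.rfl, subset_union_right, fun h => absurd rfl h⟩
  | @tail E D _ hED ih =>
    obtain ⟨h1, h2, h3, h4⟩ := ih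
    refine ⟨child_valid hD h1 hED, (child_sub hED).trans h2, ?_, fun _ => ?_⟩
    · refine (child_nbr hD h1 hED).trans ((hD.sup E h1).trans ?_)
      exact union_subset (h2.trans subset_union_left) h3
    · have hc := child_card hD h1 hED
      refine ⟨lt_of_lt_of_le hc (card_le_card h2), ?_⟩
      by_cases hEC : E = C
      · subst hEC
        exact child_disj hED
      · exact disjoint_of_subset_left (child_sub hED) (h4 hEC).2

theorem two (hD : Dec G k Valid X) {C D : Finset V} (hC : Valid C) (h : Desc G X C D) :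
    ∀ D', Desc G X C D' → Desc G X D D' ∨ Desc G X D' D ∨
      (Disjoint D D' ∧ ∀ u ∈ D, ∀ v ∈ D', ¬ G.Adj u v) := by
  revert hC
  refine Relation.ReflTransGen.head_induction_on
    (motive := fun C _ => Valid C → ∀ D', Desc G X C D' → Desc G X D D' ∨ Desc G X D' D ∨
      (Disjoint D D' ∧ ∀ u ∈ D, ∀ v ∈ D', ¬ G.Adj u v)) h ?_ ?_
  · intro _ D' hD'
    exact Or.inl hD'
  · intro C D₁ hCD₁ hD₁ ih hC D' hD'
    rcases Relation.ReflTransGen.cases_head hD' with hh | ⟨D₂, hCD₂, hD₂⟩
    · subst hh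
      exact Or.inr (Or.inl (Relation.ReflTransGen.head hCD₁ hD₁))
    · by_cases he : D₁ = D₂
      · subst he
        exact ih (child_valid hD hC hCD₁) D' hD₂
      · right; right
        have hs1 : D ⊆ D₁ := (one hD (child_valid hD hC hCD₁) hD₁).2.1
        have hs2 : D' ⊆ D₂ := (one hD (child_valid hD hC hCD₂) hD₂).2.1
        have hno : ∀ x, x ∈ D₁ → x ∈ D₂ → False := fun x h1 h2 =>
          he (IsComp.eq_of_mem (V := V) hCD₁ hCD₂ h1 h2)
        refine ⟨Finset.disjoint_left.2 fun x hx hx' => hno x (hs1 hx) (hs2 hx'), ?_⟩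
        intro u hu v hv huv
        exact hno v (hCD₁.2.2 u (hs1 hu) v (hCD₂.1 (hs2 hv)) huv) (hs2 hv)

theorem four_aux (hD : Dec G k Valid X) {E E' D : Finset V} (hE : Valid E) (h : Desc G X E E')
    (h1 : Child G X E D) (h2 : Child G X E' D) : E = E' := by
  rcases Relation.ReflTransGen.cases_head h with hh | ⟨D₁, hD₁, hD₁E'⟩
  · exact hh
  · exfalso
    have hv1 := child_valid hD hE hD₁
    obtain ⟨hE', hsub, -, -⟩ := one hD hv1 hD₁E'
    obtain ⟨u, hu⟩ := h1.2.1.1
    have h3 : u ∈ D₁ := hsub (child_sub h2 hu)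
    have h4 : D = D₁ := IsComp.eq_of_mem (V := V) h1 hD₁ hu h3
    have h5 := child_card hD hE' h2
    have h6 := card_le_card hsub
    rw [h4] at h5
    omega

end LML

open LML in
theorem lm_thm : S_LM := by
  intro V _ _ G k Valid X hD
  refine ⟨fun C D hC h => one hD hC h, fun C D D' hC h h' => two hD hC h D' h', ?_, ?_, ?_⟩
  · intro E D hE h
    exact ⟨child_nbr hD hE h, child_nbr_nonempty hD hE h⟩
  · intro C E E' D hC hE hE' h1 h2
    rcases two hD hC hE E' hE' with h | h | ⟨h, -⟩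
    · exact four_aux hD (one hD hC hE).1 h h1 h2
    · exact (four_aux hD (one hD hC hE').1 h h2 h1).symm
    · obtain ⟨u, hu⟩ := h1.2.1.1
      exact absurd (child_sub h2 hu) (Finset.disjoint_left.1 h (child_sub h1 hu))
  · intro C hC
    have h0 : ∀ u ∈ C, ∀ v ∈ C, Lk (gr G C) univ u v := by
      intro u hu v hv
      have h1 := (hD.conn C hC).2 u hu v hv
      have h2 : Lk (gr G C) C u v := h1.mono_adj fun x hx y _ hxy => gr_adj.2 ⟨hxy, Or.inl hx⟩
      exact h2.mono (subset_univ _)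
    have h1 : ∀ u ∈ C ∪ nbr G C, ∃ c ∈ C, Lk (gr G C) univ u c := by
      intro u hu
      rcases mem_union.1 hu with h | h
      · exact ⟨u, h, Lk.refl (mem_univ _)⟩
      · obtain ⟨-, c, hc, hcu⟩ := mem_nbr.1 h
        exact ⟨c, hc, Lk.of_adj (gr_adj.2 ⟨hcu.symm, Or.inr hc⟩) (mem_univ _) (mem_univ _)⟩
    intro u hu v hv
    obtain ⟨c, hc, hcu⟩ := h1 u hu
    obtain ⟨d, hd, hdv⟩ := h1 v hv
    exact (hcu.trans (h0 c hc d hd)).trans hdv.symm

end LW
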