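import Pool.Agent.H67.LW.Base

/-!
OA: lexicographic orders of the edges (abstract).
-/

set_option autoImplicit false

namespace LW

open Finset
open Pool.Agent.Helper36.BN (inc cyc bdry)

namespace OAL

/-- ranks of an injective key -/
theorem exists_rank {E K : Type} [Fintype E] [LinearOrder K] (key : E → K)
    (hinj : Function.Injective key) : ∃ f : E → ℕ, Function.Injective f ∧
      ∀ e e', f e ≤ f e' ↔ key e ≤ key e' := by
  classical
  let f : E → ℕ := fun e => (univ.filter fun e' => key e' < key e).card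
  have hlt : ∀ e e', key e < key e' → f e < f e' := by
    intro e e' h
    refine card_lt_card ⟨?_, ?_⟩
    · intro x hx
      rw [mem_filter] at hx ⊢
      exact ⟨mem_univ _, hx.2.trans h⟩
    · intro hsub
      have h1 : e ∈ univ.filter fun x => key x < key e' := mem_filter.2 ⟨mem_univ _, h⟩
      have h2 := (mem_filter.1 (hsub h1)).2
      exact lt_irrefl _ h2
  have hiff : ∀ e e', f e ≤ f e' ↔ key e ≤ key e' := by
    intro e e'
    constructor
    · intro h
      by_contra hc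
      exact absurd (hlt e' e (not_le.1 hc)) (not_lt.2 h)
    · intro h
      rcases h.eq_or_lt with h' | h'
      · rw [hinj h']
      · exact (hlt e e' h').le
  refine ⟨f, fun e e' h => hinj ?_, hiff⟩
  exact le_antisymm ((hiff e e').1 h.le) ((hiff e' e).1 h.ge)

end OAL

theorem oa_thm : S_OA := by
  intro W E _ _ _ _ s t κ₁ κ₂ N B n m hN hB h1 h2
  let key : E → ℕ ×ₗ (ℕ ×ₗ ℕ) := fun e =>
    toLex (κ₁ e, toLex (κ₂ e, ((Fintype.equivFin E e : Fin _) : ℕ)))
  have hkey : Function.Injective key := by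
    intro e e' h
    have h3 : (κ₁ e, toLex (κ₂ e, ((Fintype.equivFin E e : Fin _) : ℕ))) =
        (κ₁ e', toLex (κ₂ e', ((Fintype.equivFin E e' : Fin _) : ℕ))) := toLex.injective h
    have h4 := (Prod.ext_iff.1 h3).2
    have h5 : (κ₂ e, ((Fintype.equivFin E e : Fin _) : ℕ)) =
        (κ₂ e', ((Fintype.equivFin E e' : Fin _) : ℕ)) := toLex.injective h4
    have h6 := (Prod.ext_iff.1 h5).2
    exact (Fintype.equivFin E).injective (Fin.ext h6)
  have hkle : ∀ e e', key e ≤ key e' → κ₁ e < κ₁ e' ∨ (κ₁ e = κ₁ e' ∧ κ₂ e ≤ κ₂ e') := by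
    intro e e' h
    rcases Prod.Lex.toLex_le_toLex.1 h with h3 | ⟨h3, h4⟩
    · exact Or.inl h3
    · refine Or.inr ⟨h3, ?_⟩
      rcases Prod.Lex.toLex_le_toLex.1 h4 with h5 | ⟨h5, -⟩
      · exact h5.le
      · exact h5.le
  obtain ⟨f, hf, hle⟩ := OAL.exists_rank key hkey
  refine ⟨f, hf, ?_, fun e e' h => hkle e e' ((hle e e').1 h)⟩
  intro p
  rcases (univ.filter fun e => f e ≤ p).eq_empty_or_nonempty with h0 | h0
  · have : bdry s t f p = ∅ := by
      refine eq_empty_of_forall_notMem fun v hv => ?_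
      unfold Pool.Agent.Helper36.BN.bdry at hv
      rw [mem_filter] at hv
      obtain ⟨-, ⟨e, he, -⟩, -⟩ := hv
      have h3 : e ∈ univ.filter fun e => f e ≤ p := mem_filter.2 ⟨mem_univ _, he⟩
      rw [h0] at h3
      exact absurd h3 (notMem_empty _)
    rw [this, card_empty]
    exact Nat.zero_le _
  · obtain ⟨e₀, he₀, hmax⟩ := exists_max_image _ f h0
    rw [mem_filter] at he₀
    have hsub : bdry s t f p ⊆ ((N (κ₁ e₀ - 1) ∪ N (κ₁ e₀)) ∪ B e₀) ∪ {s e₀} := by
      intro v hv
      unfold Pool.Agent.Helper36.BN.bdry at hv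
      rw [mem_filter] at hv
      obtain ⟨-, ⟨e, he, hev⟩, ⟨e', he', hev'⟩⟩ := hv
      have h3 : f e ≤ f e₀ := hmax e (mem_filter.2 ⟨mem_univ _, he⟩)
      have h4 : f e₀ ≤ f e' := le_trans he₀.2 he'.le
      rcases hkle _ _ ((hle _ _).1 h3) with h5 | ⟨h5, h6⟩
      · have h7 : κ₁ e₀ ≤ κ₁ e' := by
          rcases hkle _ _ ((hle _ _).1 h4) with h8 | ⟨h8, -⟩
          · exact h8.le
          · exact h8.le
        have := h1 (κ₁ e₀ - 1) e e' v (by omega) (by omega) hev hev'
        simp [this]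
      · rcases hkle _ _ ((hle _ _).1 h4) with h8 | ⟨h8, h9⟩
        · have := h1 (κ₁ e₀) e e' v h5.le h8 hev hev'
          simp [this]
        · rcases h2 e e' e₀ v h5 h8.symm h6 h9 hev hev' with h10 | h10
          · simp [h10]
          · simp [h10]
    calc (bdry s t f p).card ≤ (((N (κ₁ e₀ - 1) ∪ N (κ₁ e₀)) ∪ B e₀) ∪ {s e₀}).card :=
          card_le_card hsub
      _ ≤ ((N (κ₁ e₀ - 1) ∪ N (κ₁ e₀)) ∪ B e₀).card + 1 := by
          refine (card_union_le _ _).trans ?_
          rw [card_singleton]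
      _ ≤ ((N (κ₁ e₀ - 1) ∪ N (κ₁ e₀)).card + (B e₀).card) + 1 := by
          have := card_union_le (N (κ₁ e₀ - 1) ∪ N (κ₁ e₀)) (B e₀)
          omega
      _ ≤ 2 * n + m + 1 := by
          have h3 := card_union_le (N (κ₁ e₀ - 1)) (N (κ₁ e₀))
          have h4 := hN (κ₁ e₀ - 1)
          have h5 := hN (κ₁ e₀)
          have h6 := hB e₀
          omega

end LW
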