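import Pool.Agent.Helper9.LW.LM
import Pool.Agent.Helper9.LW.OA

/-!
OR0: the order for the piece with one cluster.
-/

set_option autoImplicit false

namespace LW

open Finset
open Pool.Agent.Helper36.BN (inc cyc bdry)

theorem or0_thm : S_OR0 := by
  classical
  intro V _ _ G k Valid X C hD hC
  refine ⟨⟨mem_singleton_self C, ?_, ?_⟩, ?_⟩
  · intro D hDC
    rw [mem_singleton] at hDC
    subst hDC
    exact Relation.ReflTransGen.refl
  · intro D hDC E hCE hED
    rw [mem_singleton] at hDC
    subst hDC
    obtain ⟨hE, h1, -, -⟩ := LML.one hD hC hCE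
    obtain ⟨-, h2, -, -⟩ := LML.one hD hE hED
    rw [mem_singleton]
    exact Subset.antisymm h1 h2
  · -- the order
    let κ₂ : TE G X {C} → ℕ := fun e => match e with
      | Sum.inl _ => 0
      | Sum.inr p => 1 + ((Fintype.equivFin (Finset V) p.1.1 : Fin _) : ℕ)
    have hstar : ∀ (e : TE G X {C}) (D : Finset V), ts G X {C} e = Sum.inr D →
        κ₂ e = 1 + ((Fintype.equivFin (Finset V) D : Fin _) : ℕ) := by
      intro e D he
      cases e with
      | inl e => cases he
      | inr p =>
        have : p.1.1 = D := Sum.inr.inj he
        change 1 + ((Fintype.equivFin (Finset V) p.1.1 : Fin _) : ℕ) = _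
        rw [this]
    have hstar' : ∀ (e : TE G X {C}) (D : Finset V),
        κ₂ e = 1 + ((Fintype.equivFin (Finset V) D : Fin _) : ℕ) → ts G X {C} e = Sum.inr D := by
      intro e D he
      cases e with
      | inl e =>
        change (0 : ℕ) = _ at he
        omega
      | inr p =>
        change 1 + ((Fintype.equivFin (Finset V) p.1.1 : Fin _) : ℕ) = _ at he
        have h1 : Fintype.equivFin (Finset V) p.1.1 = Fintype.equivFin (Finset V) D :=
          Fin.ext (by omega)
        have h2 := (Fintype.equivFin (Finset V)).injective h1
        change Sum.inr p.1.1 = Sum.inr D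
        rw [h2]
    -- ends in `V` are in the bag
    have hinl : ∀ (e : TE G X {C}) (x : V),
        (ts G X {C} e = Sum.inl x ∨ tt G X {C} e = Sum.inl x) → x ∈ X C := by
      intro e x he
      cases e with
      | inl e =>
        obtain ⟨E, hE, h1, h2, -⟩ := e.2
        rw [mem_singleton] at hE
        subst hE
        rcases he with h | h
        · have : gs e.1 = x := Sum.inl.inj h
          rwa [← this]
        · have : gt e.1 = x := Sum.inl.inj h
          rwa [← this]
      | inr p =>
        rcases he with h | h
        · cases h
        · have h1 : p.1.2 = x := Sum.inl.inj h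
          obtain ⟨h2, h3⟩ := p.2
          obtain ⟨-, E, hE, hEp⟩ := mem_Hang.1 h2
          rw [mem_singleton] at hE
          subst hE
          rw [← h1]
          exact LML.child_nbr hD hC hEp h3
    have hinr : ∀ (e : TE G X {C}) (D : Finset V),
        (ts G X {C} e = Sum.inr D ∨ tt G X {C} e = Sum.inr D) → ts G X {C} e = Sum.inr D := by
      intro e D he
      rcases he with h | h
      · exact h
      · cases e with
        | inl e => cases h
        | inr p => cases h
    obtain ⟨f, hf, hb, hk⟩ := oa_thm (V ⊕ Finset V) (TE G X {C}) (ts G X {C}) (tt G X {C})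
      (fun _ => 0) κ₂ (fun _ => ∅) (fun _ => (X C).image Sum.inl) 0 (k + 1)
      (fun _ => by simp) (fun _ => card_image_le.trans (hD.card C hC))
      (fun p e e' v _ h2 => absurd h2 (Nat.not_lt_zero _))
      (by
        intro e e' e₀ v _ _ h3 h4 h5 h6
        cases v with
        | inl x =>
          left
          exact mem_image_of_mem _ (hinl e x h5)
        | inr D =>
          right
          have h7 := hstar e D (hinr e D h5)
          have h8 := hstar e' D (hinr e' D h6)
          exact (hstar' e₀ D (by omega)).symm)
    refine ⟨f, hf, fun p => (hb p).trans (by omega), ?_⟩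
    intro D e e' e'' he he' h1 h2
    have h3 : κ₂ e ≤ κ₂ e'' := by
      rcases hk _ _ h1 with h | ⟨-, h⟩
      · exact absurd h (lt_irrefl _)
      · exact h
    have h4 : κ₂ e'' ≤ κ₂ e' := by
      rcases hk _ _ h2 with h | ⟨-, h⟩
      · exact absurd h (lt_irrefl _)
      · exact h
    have h5 := hstar e D he
    have h6 := hstar e' D he'
    exact hstar' e'' D (by omega)

end LW
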